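import Pool.Agent.Helper92.BO.GoalsH
import Pool.Agent.Helper85.BO.EDG

/-!
# EDH: the graph of a system (no signs)
-/

namespace Pool.Agent.Helper16.BO

open Pool.Agent.Helper92.BO Pool.Agent.Helper92.VP Pool.Agent.Helper92.FR Pool.Agent.Bin
open Pool.Agent.Helper85.BO

/-- Adjacency. -/
theorem adj_iffS (Δ : ℕ) (S : Sys) (hS : StabSys Δ S) (u w : ℕ) :
    (gE (edgesS S)).Adj u w ↔ u < S.1 ∧ w < S.1 ∧ Nbr S u w := by
  have h0 : (gE (edgesS S)).Adj u w ↔ adjB (edgesS S) u w = true := Iff.rfl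
  rw [h0]
  simp only [adjB, Bool.and_eq_true, decide_eq_true_eq, List.any_eq_true, Bool.or_eq_true]
  constructor
  · rintro ⟨hne, e, he, h⟩
    unfold edgesS at he
    rw [List.mem_map] at he
    obtain ⟨r, hr, rfl⟩ := he
    rw [List.mem_filter, decide_eq_true_eq] at hr
    obtain ⟨hr, hlen⟩ := hr
    rcases hS.1 r hr with ⟨i, _, hl⟩ | ⟨i, _, hup⟩ | ⟨i, hi, j, hj, hE⟩
    · rw [negs_low hl] at hlen
      omega
    · have := negs_up hup
      omega
    · have hcases : (u = i ∧ w = j) ∨ (u = j ∧ w = i) := by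
        rcases negs_edge hi hj hE with hn | hn
        · rw [hn] at h
          simp at h
          rcases h with ⟨h1, h2⟩ | ⟨h1, h2⟩
          · exact Or.inl ⟨h1.symm, h2.symm⟩
          · exact Or.inr ⟨h2.symm, h1.symm⟩
        · rw [hn] at h
          simp at h
          rcases h with ⟨h1, h2⟩ | ⟨h1, h2⟩
          · exact Or.inr ⟨h1.symm, h2.symm⟩
          · exact Or.inl ⟨h2.symm, h1.symm⟩
      rcases hcases with ⟨rfl, rfl⟩ | ⟨rfl, rfl⟩
      · exact ⟨hi, hj, r, hr, hE⟩
      · exact ⟨hj, hi, r, hr, IsEdge.symm hE⟩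
  · rintro ⟨hu, hw, r, hr, hE⟩
    refine ⟨hE.1, ((negs S.1 r).getD 0 0, (negs S.1 r).getD 1 0), ?_, ?_⟩
    · unfold edgesS
      rw [List.mem_map]
      refine ⟨r, ?_, rfl⟩
      rw [List.mem_filter, decide_eq_true_eq]
      refine ⟨hr, ?_⟩
      rcases negs_edge hu hw hE with hn | hn
      · rw [hn]
        rfl
      · rw [hn]
        rfl
    · rcases negs_edge hu hw hE with hn | hn
      · rw [hn]
        left
        simp
      · rw [hn]
        right
        simp

/-- EDH: the graph of a system. -/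
theorem edh : EdhStmt := by
  intro Δ S hS
  have hadj := adj_iffS Δ S hS
  obtain ⟨hrows, hvars, hdeg⟩ := hS
  refine ⟨?_, ?_⟩
  · intro v
    by_cases hv : v < S.1
    · have h1 : (gE (edgesS S)).neighborSet v = {j | j < S.1 ∧ Nbr S v j} := by
        ext j
        rw [SimpleGraph.mem_neighborSet, hadj]
        simp [hv]
      rw [h1]
      have hfin : {j | j < S.1 ∧ Nbr S v j}.Finite :=
        (Set.finite_lt_nat S.1).subset fun j hj => hj.1
      rw [← hfin.cast_ncard_eq]
      exact_mod_cast hdeg v hv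
    · have h1 : (gE (edgesS S)).neighborSet v = ∅ := by
        ext j
        rw [SimpleGraph.mem_neighborSet, hadj]
        simp [hv]
      rw [h1]
      simp
  · ext x
    constructor
    · intro hx
      have hlow : ∀ i : Fin S.1, 0 ≤ x i := by
        intro i
        obtain ⟨⟨r, hr, hl⟩, _⟩ := hvars i i.2
        have h1 := hx r hr
        rw [sum_single r i 1 hl.2, hl.1] at h1
        linarith
      have hedge : ∀ i j : Fin S.1, Nbr S i j → x i + x j ≤ 1 := by
        intro i j ⟨r, hr, hE⟩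
        have h1 := hx r hr
        rw [sum_edge r i j hE, hE.2.1] at h1
        linarith
      refine ⟨fun i => ⟨hlow i, ?_⟩, ?_⟩
      · obtain ⟨_, h2⟩ := hvars i i.2
        rcases h2 with ⟨r, hr, hup⟩ | ⟨j, hj, hN⟩
        · have h1 := hx r hr
          rw [sum_single r i (-1) hup.2, hup.1] at h1
          linarith
        · have h1 := hedge i ⟨j, hj⟩ hN
          have h2 := hlow ⟨j, hj⟩
          linarith
      · intro i j hij
        exact hedge i j ((hadj i j).1 hij).2.2
    · rintro ⟨hbox, hedge⟩ r hr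
      rcases hrows r hr with ⟨i, hi, hl⟩ | ⟨i, hi, hup⟩ | ⟨i, hi, j, hj, hE⟩
      · rw [sum_single r (⟨i, hi⟩ : Fin S.1) 1 hl.2, hl.1]
        linarith [(hbox ⟨i, hi⟩).1]
      · rw [sum_single r (⟨i, hi⟩ : Fin S.1) (-1) hup.2, hup.1]
        linarith [(hbox ⟨i, hi⟩).2]
      · rw [sum_edge r (⟨i, hi⟩ : Fin S.1) (⟨j, hj⟩ : Fin S.1) hE, hE.2.1]
        have h1 := hedge ⟨i, hi⟩ ⟨j, hj⟩ ((hadj i j).2 ⟨hi, hj, r, hr, hE⟩)
        linarith

end Pool.Agent.Helper16.BO
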