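import Pool.Agent.Helper92.BO.GoalsA

/-!
# Stable set polytopes: the goal JBD

The potential of the children moves by at most the degree.
-/

namespace Pool.Agent.Helper16.BO

open MeasureTheory Filter Topology Function
open Pool.Agent.Helper92.BO

/-- The cut bounds are good. -/
lemma good_cut {G : SimpleGraph ℕ} {L : List ℕ} {v : ℕ} {b : ℕ → ℝ} (hb : Good L b) {x : ℝ}
    (hx : x < 1) (hx2 : x ≠ 1 / 2) : Good L (cut G v (1 - x) b) := by
  intro u hu
  obtain ⟨h1, h2, h3⟩ := hb u hu
  unfold cut
  split_ifs with hadj
  · refine ⟨lt_min h1 (by linarith), (min_le_left _ _).trans h2, ?_⟩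
    rcases min_choice (b u) (1 - x) with h | h
    · rw [h]; exact h3
    · rw [h]; intro h'; exact hx2 (by linarith)
  · exact ⟨h1, h2, h3⟩

/-- Good bounds are in the unit interval. -/
lemma good_in01 {L : List ℕ} {b : ℕ → ℝ} (hb : Good L b) : In01 L b :=
  fun u hu => ⟨(hb u hu).1.le, (hb u hu).2.1⟩

/-- The potential depends only on the bounds on the list. -/
lemma JR_congr (hL : LocStmt) (G : SimpleGraph ℕ) (s : ℕ → ℝ) (l : ℝ) (L : List ℕ)
    (b b' : ℕ → ℝ) (h : ∀ u ∈ L, b u = b' u) : JR G s l L b = JR G s l L b' := by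
  obtain ⟨_, h2, h3⟩ := hL G s 0 l L b b' h
  unfold JR
  rw [h2, h3]

/-- The potential is invariant under permutations. -/
lemma JR_perm (hK : KpmStmt) (hP : PrmStmt) (G : SimpleGraph ℕ) (s : ℕ → ℝ) (l : ℝ)
    (hs : Sgn G s) (hl : 0 < l) (hl1 : l ≤ 1) (L L' : List ℕ) (b : ℕ → ℝ) (hp : L.Perm L')
    (hb : Good L b) : JR G s l L b = JR G s l L' b := by
  unfold JR
  rw [hK G s l hs hl hl1 L L' b hp hb, (hP G 0 l L L' b hp (good_in01 hb)).2]

/-- The hybrid bounds. -/
noncomputable def hyb (N : Finset ℕ) (c c' : ℕ → ℝ) : ℕ → ℝ := fun u => if u ∈ N then c u else c' u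

/-- Changing the bounds of the neighbours one after another. -/
lemma hyb_bound (hB : PbdStmt) (hK : KpmStmt) (hP : PrmStmt) (G : SimpleGraph ℕ) (s : ℕ → ℝ)
    (l : ℝ) (Δ : ℕ) (hs : Sgn G s) (hD : DegLe G Δ) (hl : 0 < l) (hl1 : l ≤ 1) (L : List ℕ)
    (v : ℕ) (hnd : L.Nodup) (c c' : ℕ → ℝ) (hc : Good L c) (hc' : Good L c')
    (hcc : ∀ u, c u ≤ c' u) (N : Finset ℕ) (hN : ∀ u ∈ N, u ∈ L ∧ G.Adj v u) :
    s v * JR G s l L (hyb N c c') - s v * JR G s l L c' ≤ N.card := by
  classical
  induction N using Finset.induction_on with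
  | empty =>
    have : hyb ∅ c c' = c' := by
      funext u; simp [hyb]
    rw [this]; simp
  | insert u N hu ih =>
    have ih' := ih fun w hw => hN w (Finset.mem_insert_of_mem hw)
    obtain ⟨huL, huv⟩ := hN u (Finset.mem_insert_self u N)
    have hgood : ∀ M : Finset ℕ, Good L (hyb M c c') := by
      intro M w hw
      unfold hyb
      split_ifs
      · exact hc w hw
      · exact hc' w hw
    have e1 : hyb (insert u N) c c' = update (hyb N c c') u (c u) := by
      funext w
      by_cases hw : w = u
      · subst hw; simp [hyb]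
      · simp [hyb, Function.update_of_ne hw, Finset.mem_insert, hw]
    have e2 : hyb N c c' = update (hyb N c c') u (c' u) := by
      funext w
      by_cases hw : w = u
      · subst hw; simp [hyb, hu]
      · simp [Function.update_of_ne hw]
    have hperm : L.Perm (u :: L.erase u) := List.perm_cons_erase huL
    have p1 := JR_perm hK hP G s l hs hl hl1 L (u :: L.erase u) (hyb (insert u N) c c') hperm
      (hgood _)
    have p2 := JR_perm hK hP G s l hs hl hl1 L (u :: L.erase u) (hyb N c c') hperm (hgood _)
    have hsu : s u = - s v := by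
      have := hs.alt v u huv
      linarith
    have hstep : s v * JR G s l L (hyb (insert u N) c c') - s v * JR G s l L (hyb N c c') ≤ 1 := by
      rcases (hcc u).lt_or_eq with hlt | heq
      · have hndu : u ∉ L.erase u := by
          intro h
          exact (List.Nodup.mem_erase_iff hnd).1 h |>.1 rfl
        have hg : Good (L.erase u) (hyb N c c') := fun w hw =>
          hgood N w (List.mem_of_mem_erase hw)
        have := (hB G s l Δ hs hD hl hl1 (L.erase u) u (hyb N c c') (hnd.erase u) hndu hg
          (c u) (c' u) (hc u huL).1 hlt (hc' u huL).2.1 (hc u huL).2.2 (hc' u huL).2.2).2.1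
        rw [← e1, ← e2, hsu] at this
        rw [p1, p2]
        linarith
      · have : hyb (insert u N) c c' = hyb N c c' := by
          rw [e1, heq]; exact e2.symm
        rw [this]; simp
    rw [Finset.card_insert_of_notMem hu]
    push_cast
    linarith

/-- JBD. -/
theorem jbd (hB : PbdStmt) (hM : MnjStmt) (hK : KpmStmt) (hP : PrmStmt) (hL : LocStmt) :
    JbdStmt := by
  classical
  intro G s l Δ hs hD hl hl1 L v b hnd hv hb x' x hx' hxx hx hx'2 hx2
  have gx : Good L (cut G v (1 - x) b) := good_cut hb hx hx2
  have gx' : Good L (cut G v (1 - x') b) := good_cut hb (hxx.trans hx) hx'2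
  have hcc : ∀ u, cut G v (1 - x) b u ≤ cut G v (1 - x') b u := by
    intro u
    unfold cut
    split_ifs
    · exact min_le_min le_rfl (by linarith)
    · exact le_rfl
  constructor
  · rcases hs.pm v with hsv | hsv
    · have hle : Leq s L (cut G v (1 - x') b) (cut G v (1 - x) b) := by
        intro u _
        by_cases hadj : G.Adj v u
        · have hsu : s u = -1 := by
            have := hs.alt v u hadj
            linarith
          have := hcc u
          rw [hsu]; linarith
        · simp [cut, hadj]
      have := hM G s l Δ hs hD hl hl1 L _ _ hnd gx' gx hle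
      rw [hsv]; linarith
    · have hle : Leq s L (cut G v (1 - x) b) (cut G v (1 - x') b) := by
        intro u _
        by_cases hadj : G.Adj v u
        · have hsu : s u = 1 := by
            have := hs.alt v u hadj
            linarith
          have := hcc u
          rw [hsu]; linarith
        · simp [cut, hadj]
      have := hM G s l Δ hs hD hl hl1 L _ _ hnd gx gx' hle
      rw [hsv]; linarith
  · set N : Finset ℕ := L.toFinset.filter fun u => G.Adj v u with hNdef
    have hN : ∀ u ∈ N, u ∈ L ∧ G.Adj v u := by
      intro u hu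
      rw [hNdef, Finset.mem_filter, List.mem_toFinset] at hu
      exact hu
    have h1 := hyb_bound hB hK hP G s l Δ hs hD hl hl1 L v hnd _ _ gx gx' hcc N hN
    have h2 : JR G s l L (hyb N (cut G v (1 - x) b) (cut G v (1 - x') b)) =
        JR G s l L (cut G v (1 - x) b) := by
      apply JR_congr hL
      intro u hu
      unfold hyb
      split_ifs with hmem
      · rfl
      · have hadj : ¬ G.Adj v u := by
          intro h
          exact hmem (by rw [hNdef, Finset.mem_filter, List.mem_toFinset]; exact ⟨hu, h⟩)
        simp [cut, hadj]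
    rw [h2] at h1
    have h3 : N.card ≤ Δ := by
      have h4 : (N : Set ℕ) ⊆ G.neighborSet v := by
        intro u hu
        exact (hN u (by exact_mod_cast hu)).2
      have h5 := (Set.encard_le_encard h4).trans (hD v)
      rw [Set.encard_coe_eq_coe_finsetCard] at h5
      exact_mod_cast h5
    have h6 : (N.card : ℝ) ≤ Δ := by exact_mod_cast h3
    linarith

end Pool.Agent.Helper16.BO
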